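import Pool.Agent.R510.LS.Fin

/-!
# The light-segment set can have positive `(m-1)`-dimensional measure

The question is whether `H^{m-1}(K) = 0` for the (closed) light-segment set `K` of the minimiser `u_ρ`, for all `m ≥ 2`,
all bounded domains `Ω ⊆ ℝ^m`, all boundary data `φ ∈ 𝒮(∂Ω)` and all finite signed measures `ρ`.

The answer is negative: for `m = 5`, `Ω` the open unit ball and `φ = 0` there is `ρ = f dx` with `f ∈ L¹(Ω)` such that the
(unique) minimiser `u` has a light-segment set `K` with `H^4(K) > 0`.

Construction.  There is a smooth compactly supported block function `u₀(s, y) = g(s) κ(|y|²/S)` on `ℝ × ℝ⁴` with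
`|Du₀| = 1` exactly on a piece of the axis `y = 0`, with `u₀(1/2, 0) - u₀(-1/2, 0) = 1`, and with `1 - |Du₀|² ≥ c |y|²`.
The flux `F = Du₀ / √(1 - |Du₀|²)` and its divergence are `O(|y|⁻³)`, hence integrable, and integration by parts against
Lipschitz functions is justified by replacing `Du₀` by `λ Du₀` and letting `λ → 1`.  The function
`u = ∑ r_k u₀((x - c_k)/r_k)`, with disjoint supports accumulating at every point of a disc of the hyperplane `x₀ = 0`,
minimises the action with `ρ = -div F_u ∈ L¹`, by the convexity of `1 - √(1 - |p|²)`.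
-/

set_option autoImplicit false

namespace Pool.Agent.Results.MP_2eaabb_an.LightSegments

open MeasureTheory Set Metric Pool.Agent.R510.LS

/-- Negative answer to Q1: in dimension `5`, on the unit ball and with zero boundary datum, there is a source
`ρ = f dx` with `f ∈ L¹(Ω)` whose unique minimiser `u` in `𝒴_0` has a light-segment set of positive
`4`-dimensional Hausdorff measure. -/
theorem result :
    IsBoundaryDatum (ball (0 : EuclideanSpace ℝ (Fin 5)) 1) 0 ∧
    ∃ f u : EuclideanSpace ℝ (Fin 5) → ℝ,
      IntegrableOn f (ball 0 1) ∧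
      IsAdmissible (ball 0 1) 0 u ∧
      (∀ v, IsAdmissible (ball 0 1) 0 v → action (ball 0 1) f u ≤ action (ball 0 1) f v) ∧
      (∀ v, IsAdmissible (ball 0 1) 0 v → action (ball 0 1) f v ≤ action (ball 0 1) f u →
        EqOn v u (ball 0 1)) ∧
      0 < μH[4] (lightSet (ball 0 1) u) :=
  ⟨zero_datum, f, u, f_int.integrableOn, u_adm, fun _ hv => u_min hv, fun _ hv h => u_unique hv h,
    light_pos⟩

end Pool.Agent.Results.MP_2eaabb_an.LightSegments
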